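import Pool.Agent.Run7.h54.Pmp

namespace Pool.Agent.Results.MP_c9ffa7_al.EssentiallyFree

open Run7.h54 MeasureTheory

/-- Let `G` be a torsion-free barely transitive group. In every action of `G` preserving a finite
measure (with measurable fixed-point sets), almost every point is either fixed by the whole group
or has trivial stabiliser. -/
theorem result {G Ω : Type*} [Group G] [MulAction G Ω] [FaithfulSMul G Ω]
    [MulAction.IsPretransitive G Ω] [Infinite Ω]
    (hbt : ∀ K : Subgroup G, K ≠ ⊤ → ∀ x : Ω, (MulAction.orbit K x).Finite)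
    (htf : ∀ g : G, IsOfFinOrder g → g = 1)
    {X : Type*} [MeasurableSpace X] [MulAction G X] (μ : Measure X) [IsFiniteMeasure μ]
    [SMulInvariantMeasure G X μ] (hfix : ∀ g : G, MeasurableSet {x : X | g • x = x}) :
    ∀ᵐ x ∂μ, (∀ g : G, g • x = x) ∨ (∀ g : G, g • x = x → g = 1) := by
  obtain ⟨α⟩ : Nonempty Ω := inferInstance
  have : Countable G := countable_of_bt (Ω := Ω) hbt
  exact pmp_free (hyp_of_bt (Ω := Ω) hbt htf) (big_stabilizer hbt α) (stabilizer_ne_top α) μ hfix

end Pool.Agent.Results.MP_c9ffa7_al.EssentiallyFree
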