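import Pool.Agent.Run7.h54.Main
import Pool.Agent.Run7.h54.Action

namespace Pool.Agent.Results.MP_c9ffa7_al.LocallyNormalCentralizer

open Run7.h54

/-- Let `G` be a torsion-free barely transitive group on `Ω` and `α` a point. A nontrivial
subgroup `A` of `G` that is normalised by a subgroup of finite index of the stabiliser of `α` has
trivial centraliser in `G`. -/
theorem result {G Ω : Type*} [Group G] [MulAction G Ω] [FaithfulSMul G Ω]
    [MulAction.IsPretransitive G Ω] [Infinite Ω]
    (hbt : ∀ K : Subgroup G, K ≠ ⊤ → ∀ x : Ω, (MulAction.orbit K x).Finite)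
    (htf : ∀ g : G, IsOfFinOrder g → g = 1)
    (α : Ω) (A : Subgroup G) (hA : A ≠ ⊥)
    (hfin : (Subgroup.normalizer (A : Set G)).relIndex (MulAction.stabilizer G α) ≠ 0) :
    Subgroup.centralizer (A : Set G) = ⊥ :=
  (hyp_of_bt (Ω := Ω) hbt htf).centralizer_eq_bot ((big_stabilizer hbt α).of_relIndex hfin) hA

end Pool.Agent.Results.MP_c9ffa7_al.LocallyNormalCentralizer
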