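import Pool.Agent.Run7.h54.Minimal

namespace Pool.Agent.Results.MP_c9ffa7_al.MinimalTopFree

open Run7.h54

/-- Let `G` be a torsion-free barely transitive group. Every minimal action of `G` by
homeomorphisms on a compact Hausdorff space with more than one point is topologically free. -/
theorem result {G Ω : Type*} [Group G] [MulAction G Ω] [FaithfulSMul G Ω]
    [MulAction.IsPretransitive G Ω] [Infinite Ω]
    (hbt : ∀ K : Subgroup G, K ≠ ⊤ → ∀ x : Ω, (MulAction.orbit K x).Finite)
    (htf : ∀ g : G, IsOfFinOrder g → g = 1)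
    {X : Type*} [TopologicalSpace X] [CompactSpace X] [T2Space X] [Nontrivial X] [MulAction G X]
    [ContinuousConstSMul G X] [MulAction.IsMinimal G X] (g : G) (hg : g ≠ 1) :
    interior {x : X | g • x = x} = ∅ := by
  obtain ⟨α⟩ : Nonempty Ω := inferInstance
  exact minimal_top_free (hyp_of_bt (Ω := Ω) hbt htf) (big_stabilizer hbt α)
    (stabilizer_ne_top α) hg

end Pool.Agent.Results.MP_c9ffa7_al.MinimalTopFree
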