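import Pool.Agent.Run7.h54.Extreme

namespace Pool.Agent.Results.MP_c9ffa7_al.NoExtremeProximal

open Run7.h54
open scoped Pointwise

/-- A torsion-free barely transitive group has no extremely proximal action by homeomorphisms on a
Hausdorff space with more than two points. -/
theorem result {G Ω : Type*} [Group G] [MulAction G Ω] [FaithfulSMul G Ω]
    [MulAction.IsPretransitive G Ω] [Infinite Ω]
    (hbt : ∀ K : Subgroup G, K ≠ ⊤ → ∀ x : Ω, (MulAction.orbit K x).Finite)
    (htf : ∀ g : G, IsOfFinOrder g → g = 1)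
    {X : Type*} [TopologicalSpace X] [T2Space X] [MulAction G X] [ContinuousConstSMul G X]
    (hep : ∀ A U : Set X, IsClosed A → A ≠ Set.univ → IsOpen U → U.Nonempty →
      ∃ g : G, g • A ⊆ U)
    (p q r : X) : p = q ∨ q = r ∨ p = r := by
  by_contra hcon
  push Not at hcon
  exact not_ep (hyp_of_bt (Ω := Ω) hbt htf) hbt hep p q r hcon.1 hcon.2.1 hcon.2.2

end Pool.Agent.Results.MP_c9ffa7_al.NoExtremeProximal
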